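import Mathlib
import Pool.Graph.R_seed8.H508R2.PL.ANN
import Pool.Graph.R_seed8.H508R2.PL.AsmA
import Pool.Graph.R_seed8.H508R2.PL.BALLZ
import Pool.Graph.R_seed8.H508R2.PL.BUP
import Pool.Graph.R_seed8.H508R2.PL.CONE
import Pool.Graph.R_seed8.H508R2.PL.INR
import Pool.Graph.R_seed8.H508R2.PL.LIM
import Pool.Graph.R_seed8.H508R2.PL.NET
import Pool.Graph.R_seed8.H508R2.PL.RAT
import Pool.Graph.R_seed8.H508R2.PL.SCALE
import Pool.Graph.R_seed8.H508R2.PL.SHELL
import Pool.Graph.R_seed8.H508R2.PL.SUB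
import Pool.Graph.R_seed8.H508R2.PL.VGAM

/-!
# MP_4043ba_gt: multiple plank coverings of balls in all dimensions

The exact limit of `c_K(k)/k` for the ball of every dimension `d ≥ 3`, and the ball has the
smallest limit among all centrally symmetric bodies.

Definitions: `IsConvexBody`, `minWidth`, `inradius`, `plank`, `IsFoldCover`, `coverConst`
(`c_K(k)`) in `Pool/Graph/R_seed8/Helper934/PlankDefs.lean`.
-/

namespace Pool.Agent.Results.MP_4043ba_gt.BallLimit

open MeasureTheory Metric Set Filter Topology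
open Pool.Agent.Helper934.PlankDefs Pool.Agent.Helper934.PlankMain
open Pool.Agent.H508R2.PL

/-- The constant of the ball: `√π Γ((d-1)/2) / (2 Γ(d/2))`. -/
noncomputable def ballConst (d : ℕ) : ℝ :=
  Real.sqrt Real.pi * Real.Gamma ((d - 1) / 2) / (2 * Real.Gamma (d / 2))

theorem s_LIM : S_LIM := t_LIM t_SUB
theorem s_INR : S_INR := t_INR (t_BALLZ (t_SHELL t_ANN))
theorem s_BUP : S_BUP := t_BUP t_CONE t_NET t_RAT

theorem vd_eq {d : ℕ} (hd : 2 ≤ d) : vd d = 2 * ballConst d := by
  rw [t_VGAM d hd, ballConst]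
  have : Real.Gamma ((d : ℝ) / 2) ≠ 0 := by
    have : (0 : ℝ) < d := by exact_mod_cast (by omega : 0 < d)
    exact (Real.Gamma_pos_of_pos (by positivity)).ne'
  field_simp

/-- Let `d ≥ 3` and `β = √π Γ((d-1)/2) / (2 Γ(d/2))`. Then `c_B(k)/k → β` for every closed ball
`B` of dimension `d`. For every convex body `K` of dimension `d` with inradius `r` and minimal
width `w`, `c_K(k) ≥ β (2r/w) k` for all `k`; in particular `c_K(k) ≥ β k` if `K` is centrally
symmetric. -/
theorem result (d : ℕ) (hd : 3 ≤ d) :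
    (∀ (c : EuclideanSpace ℝ (Fin d)) (ρ : ℝ), 0 < ρ →
      Tendsto (fun k : ℕ => coverConst (closedBall c ρ) k / k) atTop (𝓝 (ballConst d))) ∧
    (∀ K : Set (EuclideanSpace ℝ (Fin d)), IsConvexBody K → ∀ k : ℕ,
      ballConst d * (2 * inradius K / minWidth K) * k ≤ coverConst K k) ∧
    ∀ K : Set (EuclideanSpace ℝ (Fin d)), IsConvexBody K →
      (∃ p, ∀ x ∈ K, (2 : ℝ) • p - x ∈ K) → ∀ k : ℕ, ballConst d * k ≤ coverConst K k := by
  have hd1 : 1 ≤ d := by omega
  have hd2 : 2 ≤ d := by omega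
  have hinr : ∀ K : Set (EuclideanSpace ℝ (Fin d)), IsConvexBody K → ∀ k : ℕ,
      ballConst d * (2 * inradius K / minWidth K) * k ≤ coverConst K k := by
    intro K hK k
    have h1 := s_INR d K k hd hK
    rw [vd_eq hd2] at h1
    calc ballConst d * (2 * inradius K / minWidth K) * k
        = 2 * ballConst d * inradius K / minWidth K * k := by ring
      _ ≤ _ := h1
  refine ⟨?_, hinr, ?_⟩
  · intro c ρ hρ
    obtain ⟨hb, hw, hr, -⟩ := t_SCALE d c ρ 0 hd1 hρ
    obtain ⟨L, hL, hk⟩ := s_LIM d (closedBall c ρ) hd1 hb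
    have h1 : ballConst d ≤ L := by
      refine lim_ge_of hL (fun k => ?_)
      have h2 := hinr _ hb k
      rw [hw, hr, div_self (by positivity), mul_one] at h2
      exact h2
    have h2 : L ≤ ballConst d := by
      refine le_of_forall_pos_le_add fun ε hε => ?_
      obtain ⟨k, m, θ, a, b, hk1, hc, hs⟩ := s_BUP d (2 * ε) hd (by positivity)
      obtain ⟨hb0, hw0, -, -⟩ := t_SCALE d (0 : EuclideanSpace ℝ (Fin d)) 1 k hd1 one_pos
      obtain ⟨-, -, -, hsc⟩ := t_SCALE d c ρ k hd1 hρ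
      have h3 := hk k
      rw [hsc] at h3
      have h4 := coverConst_le (minWidth_pos hd1 hb0).le hc
      rw [hw0] at h4
      have h5 := h3.trans h4
      rw [le_div_iff₀ (by norm_num), vd_eq hd2] at *
      have hk0 : (0 : ℝ) < k := by exact_mod_cast hk1
      have h6 : L * k ≤ (ballConst d + ε) * k := by linarith
      exact le_of_mul_le_mul_right h6 hk0
    obtain rfl := le_antisymm h2 h1
    exact hL
  · rintro K hK ⟨p, hp⟩ k
    have h1 := hinr K hK k
    have hw := minWidth_pos hd1 hK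
    rw [← symm_width hd1 hK p hp, div_self hw.ne', mul_one] at h1
    exact h1

end Pool.Agent.Results.MP_4043ba_gt.BallLimit
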