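import Mathlib
import Pool.Graph.R_seed8.H508R2.PL.AsmA
import Pool.Graph.R_seed8.H508R2.PL.BCOV
import Pool.Graph.R_seed8.H508R2.PL.BOX
import Pool.Graph.R_seed8.H508R2.PL.DET
import Pool.Graph.R_seed8.H508R2.PL.DIFF
import Pool.Graph.R_seed8.H508R2.PL.DIML
import Pool.Graph.R_seed8.H508R2.PL.FRAME
import Pool.Graph.R_seed8.H508R2.PL.LAYER
import Pool.Graph.R_seed8.H508R2.PL.LIM
import Pool.Graph.R_seed8.H508R2.PL.LOWER
import Pool.Graph.R_seed8.H508R2.PL.RATIO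
import Pool.Graph.R_seed8.H508R2.PL.SIMPLEX
import Pool.Graph.R_seed8.H508R2.PL.SLAB
import Pool.Graph.R_seed8.H508R2.PL.STRIP
import Pool.Graph.R_seed8.H508R2.PL.SUB
import Pool.Graph.R_seed8.H508R2.PL.UNIF

/-!
# MP_4043ba_gt: the order of growth of `c_d(k)` in all dimensions

`c_d(k)/k` has order exactly `1/√d` for large `k`, and `c_d(k)` lies between `k/(4√d)` and
`8 max(√k, k/√d)` for all `d ≥ 2` and `k ≥ 1`.

Definitions: `IsConvexBody`, `minWidth`, `plank`, `IsFoldCover`, `coverConst` (`c_K(k)`),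
`coverConstDim` (`c_d(k)`) in `Pool/Graph/R_seed8/Helper934/PlankDefs.lean`.
-/

namespace Pool.Agent.Results.MP_4043ba_gt.DimensionOrder

open MeasureTheory Metric Set Filter Topology
open Pool.Agent.Helper934.PlankDefs Pool.Agent.Helper934.PlankMain
open Pool.Agent.H508R2.PL

theorem s_LOWER : S_LOWER := t_LOWER t_DIFF (t_DET t_STRIP) t_LAYER t_SLAB t_RATIO
theorem s_LIM : S_LIM := t_LIM t_SUB

/-- For every `d ≥ 2`: `c_K(k) ≥ k/(4√d)` for every convex body `K` of dimension `d` and every `k`;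
`c_d(k)/k` converges, with limit between `1/(4√d)` and `1/√d`; and
`k/(4√d) ≤ c_d(k) ≤ 8 max(√k, k/√d)` for all `k ≥ 1`. -/
theorem result (d : ℕ) (hd : 2 ≤ d) :
    (∀ K : Set (EuclideanSpace ℝ (Fin d)), IsConvexBody K →
      ∀ k : ℕ, (k : ℝ) / (4 * Real.sqrt d) ≤ coverConst K k) ∧
    (∃ L : ℝ, 1 / (4 * Real.sqrt d) ≤ L ∧ L ≤ 1 / Real.sqrt d ∧
      Tendsto (fun k : ℕ => coverConstDim d k / k) atTop (𝓝 L)) ∧
    ∀ k : ℕ, 1 ≤ k → (k : ℝ) / (4 * Real.sqrt d) ≤ coverConstDim d k ∧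
      coverConstDim d k ≤ 8 * max (Real.sqrt k) (k / Real.sqrt d) := by
  obtain ⟨hA1, hA2, hA3⟩ := partA s_LOWER s_LIM (t_DIML s_LIM) (t_SIMPLEX t_FRAME)
    (t_UNIF t_BOX t_BCOV) d hd
  exact ⟨fun K hK => (hA1 K hK).1, hA2, hA3⟩

end Pool.Agent.Results.MP_4043ba_gt.DimensionOrder
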