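import Mathlib
import Pool.Agent.H907.PL.Dual
import Pool.Graph.R_seed8.H508R2.PL.AsmA
import Pool.Graph.R_seed8.H508R2.PL.DET
import Pool.Graph.R_seed8.H508R2.PL.DIFF
import Pool.Graph.R_seed8.H508R2.PL.LAYER
import Pool.Graph.R_seed8.H508R2.PL.LIM
import Pool.Graph.R_seed8.H508R2.PL.LOWER
import Pool.Graph.R_seed8.H508R2.PL.RATIO
import Pool.Graph.R_seed8.H508R2.PL.SLAB
import Pool.Graph.R_seed8.H508R2.PL.STRIP
import Pool.Graph.R_seed8.H508R2.PL.SUB

/-!
# MP_4043ba_gt: the limit of `c_K(k)/k` for every convex body, by duality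

Definitions: `IsConvexBody`, `minWidth`, `plank`, `IsFoldCover`, `coverConst` (`c_K(k)`) in
`Pool/Graph/R_seed8/Helper934/PlankDefs.lean`, `IsSpread` in `Pool/Agent/H907/PL/Dual.lean`.
-/

namespace Pool.Agent.Results.MP_4043ba_gt.LimitDuality

open MeasureTheory Metric Set Filter Topology
open Pool.Agent.Helper934.PlankDefs Pool.Agent.Helper934.PlankMain
open Pool.Agent.H508R2.PL
open Pool.Agent.H907.PL (IsSpread)

theorem s_LOWER : S_LOWER := t_LOWER t_DIFF (t_DET t_STRIP) t_LAYER t_SLAB t_RATIO
theorem s_LIM : S_LIM := t_LIM t_SUB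

/-- Duality: description of the limit by probability measures. -/
theorem duality {d : ℕ} (hd : 2 ≤ d) {K : Set (EuclideanSpace ℝ (Fin d))} (hK : IsConvexBody K)
    {L : ℝ} (hL0 : 0 < L) (hL : Tendsto (fun k : ℕ => coverConst K k / k) atTop (𝓝 L))
    (hLk : ∀ k : ℕ, L * k ≤ coverConst K k) :
    IsLeast {C : ℝ | ∃ μ : Measure (EuclideanSpace ℝ (Fin d)), IsSpread K C μ}
      (1 / (L * minWidth K)) := by
  have hd1 : 1 ≤ d := by omega
  have hw := minWidth_pos hd1 hK
  obtain ⟨e, he⟩ := exists_unit hd1
  constructor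
  · refine Pool.Agent.H907.PL.exists_spread hK.1 (mul_pos hL0 hw) ?_
    intro k m θ a b hc
    have h1 := (hLk k).trans (coverConst_le hw.le hc)
    rw [le_div_iff₀ hw] at h1
    linarith
  · rintro C ⟨μ, hμ⟩
    have hC : 0 ≤ C := by
      by_contra hneg
      push Not at hneg
      have h1 := trivial_cover hK 1 e he
      obtain ⟨R, hR⟩ := (hK.1.isBounded).subset_closedBall 0
      have hcov : K ⊆ plank e (-R) R := by
        intro x hx
        have hx1 : ‖x‖ ≤ R := by simpa using hR hx
        have h2 := abs_real_inner_le_norm x e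
        rw [he, mul_one] at h2
        have h3 := abs_le.1 (h2.trans hx1)
        exact ⟨h3.1, h3.2⟩
      have hR0 : -R ≤ R := by
        obtain ⟨x, hx⟩ := hK.2.2.mono interior_subset
        have hx1 : ‖x‖ ≤ R := by simpa using hR hx
        have := norm_nonneg x
        linarith
      have h4 := hμ.2.2 e (-R) R he hR0
      rw [ENNReal.ofReal_of_nonpos (mul_nonpos_of_nonpos_of_nonneg hneg.le (by linarith))] at h4
      have h5 : μ univ ≤ 0 := by
        calc μ univ ≤ μ (plank e (-R) R ∪ Kᶜ) := measure_mono (fun x _ => by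
              by_cases hx : x ∈ K
              · exact Or.inl (hcov hx)
              · exact Or.inr hx)
          _ ≤ μ (plank e (-R) R) + μ Kᶜ := measure_union_le _ _
          _ ≤ 0 := by rw [hμ.2.1, add_zero]; exact h4
      have h6 := hμ.1.measure_univ
      rw [h6] at h5
      exact absurd h5 (by norm_num)
    have hCk : ∀ k : ℕ, (k : ℝ) ≤ C * minWidth K * coverConst K k := by
      intro k
      by_contra hneg
      push Not at hneg
      rcases hC.eq_or_lt with h0 | h0
      · obtain hc := trivial_cover hK (k + 1) e he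
        have := Pool.Agent.H907.PL.le_total_of_spread hμ hC hc
        rw [← h0, zero_mul] at this
        have h1 : (0 : ℝ) < ((k + 1 : ℕ) : ℝ) := by positivity
        linarith
      · have h1 : (k : ℝ) / (C * minWidth K) ≤ coverConst K k := by
          refine le_csInf (show Set.Nonempty {c : ℝ | ∃ (m : ℕ)
            (θ : Fin m → EuclideanSpace ℝ (Fin d)) (a b : Fin m → ℝ),
            IsFoldCover K k θ a b ∧ c = (∑ i, (b i - a i)) / minWidth K} from
            ⟨_, k, _, _, _, trivial_cover hK k e he, rfl⟩) ?_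
          rintro _ ⟨m, θ, a, b, hc, rfl⟩
          have := Pool.Agent.H907.PL.le_total_of_spread hμ hC hc
          rw [div_le_div_iff₀ (mul_pos h0 hw) hw]
          nlinarith
        rw [div_le_iff₀ (mul_pos h0 hw)] at h1
        linarith
    have h1 : 1 ≤ C * minWidth K * L := by
      have h2 : Tendsto (fun k : ℕ => C * minWidth K * (coverConst K k / k)) atTop
          (𝓝 (C * minWidth K * L)) := hL.const_mul _
      refine ge_of_tendsto h2 ?_
      filter_upwards [eventually_ge_atTop 1] with k hk
      have hk0 : (0 : ℝ) < k := by exact_mod_cast hk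
      rw [← mul_div_assoc, le_div_iff₀ hk0, one_mul]
      exact hCk k
    rw [div_le_iff₀ (mul_pos hL0 hw)]
    linarith

/-- Let `d ≥ 2` and let `K` be a convex body of dimension `d` and minimal width `w`. There is a
smallest number `C` such that some probability measure on `K` gives every plank a mass of at most
`C` times the width of the plank, and `C > 0`. The quotients `c_K(k)/k` converge to `1/(C w)`, and
`c_K(k) ≥ k/(C w)` for every `k`. -/
theorem result (d : ℕ) (hd : 2 ≤ d) (K : Set (EuclideanSpace ℝ (Fin d))) (hK : IsConvexBody K) :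
    ∃ C : ℝ, 0 < C ∧
      IsLeast {C : ℝ | ∃ μ : Measure (EuclideanSpace ℝ (Fin d)), IsSpread K C μ} C ∧
      Tendsto (fun k : ℕ => coverConst K k / k) atTop (𝓝 (1 / (C * minWidth K))) ∧
      ∀ k : ℕ, k / (C * minWidth K) ≤ coverConst K k := by
  have hd1 : 1 ≤ d := by omega
  have hw := minWidth_pos hd1 hK
  have hdpos : (0 : ℝ) < d := by exact_mod_cast hd1
  have hsd : 0 < Real.sqrt d := Real.sqrt_pos.mpr hdpos
  obtain ⟨L, hL, hk⟩ := s_LIM d K hd1 hK
  have hL0 : 0 < L := by
    refine lt_of_lt_of_le (show (0 : ℝ) < 1 / (4 * Real.sqrt d) by positivity)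
      (lim_ge_of hL fun k => ?_)
    calc 1 / (4 * Real.sqrt d) * k = (k : ℝ) / (4 * Real.sqrt d) := by ring
      _ ≤ _ := s_LOWER d K k hd hK
  have e : 1 / (1 / (L * minWidth K) * minWidth K) = L := by field_simp
  refine ⟨1 / (L * minWidth K), by positivity, duality hd hK hL0 hL hk, ?_, fun k => ?_⟩
  · rw [e]; exact hL
  · have h1 : (k : ℝ) / (1 / (L * minWidth K) * minWidth K) = L * k := by
      rw [div_eq_mul_one_div, e, mul_comm]
    rw [h1]
    exact hk k

end Pool.Agent.Results.MP_4043ba_gt.LimitDuality
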